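import Pool.Agent.V1175.SE.Statement
import Pool.Agent.V1175.SE.Final

open scoped ENNReal NNReal
open MeasureTheory ContinuousLinearMap

namespace Pool.Agent.Results.MP_fe632d_an.CompactOperators

open Pool.Agent.V1175.SE

universe u

/-- **Q1 and Q2 for all σ-finite measures on standard Borel spaces** (in particular for Lebesgue
measure on `ℝ`, the principal case, where both answers are yes).

1. On `L²(ℝ)` every compact operator belongs to `C*_u(ℝ, V_μ)`, `μ` Lebesgue measure.
2. The same holds for every measure without atoms on a standard Borel space.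
3. (Q1) For every σ-finite measure `μ ≠ 0` on a standard Borel space, `C*_u(X, V_μ)` contains a
non-zero compact operator.
4. (Q2) For a σ-finite measure on a standard Borel space, `C*_u(X, V_μ)` contains every compact
operator if and only if `μ` has no atoms or is concentrated on a countable set; so the answer is
no when `μ` has both an atom and an atomless part. -/
theorem result :
    AllCompact (volume : Measure ℝ) ∧
    ∀ (X : Type u) [MeasurableSpace X] [StandardBorelSpace X] (μ : Measure X),
      ((∀ x, μ {x} = 0) → AllCompact μ) ∧
      (SigmaFinite μ → μ ≠ 0 → SomeCompact μ) ∧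
      (SigmaFinite μ →
        (AllCompact μ ↔ (∀ x, μ {x} = 0) ∨ ∃ S : Set X, S.Countable ∧ μ Sᶜ = 0)) := by
  refine ⟨?_, ?_⟩
  · intro T hT
    rw [CstarU_eq]
    exact compact_mem_CuS (μ := (volume : Measure ℝ)) T hT
  · intro X _ _ μ
    refine ⟨?_, ?_, ?_⟩
    · intro h T hT
      have : NullSingletonClass μ := ⟨h⟩
      rw [CstarU_eq]
      exact compact_mem_CuS (μ := μ) T hT
    · intro _ hμ
      obtain ⟨T, h0, h1, h2⟩ := exists_compact hμ
      refine ⟨T, h0, h1, ?_⟩
      rw [CstarU_eq]
      exact h2
    · intro _
      unfold AllCompact
      rw [CstarU_eq]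
      exact all_compact_iff (μ := μ)

end Pool.Agent.Results.MP_fe632d_an.CompactOperators
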